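import Pool.Agent.W426.LE.SG
set_option autoImplicit false
set_option linter.all false

namespace Pool.Agent.W154.LEYB

open Finset
open Pool.Agent.W426.LE
open scoped Classical

theorem sgi {α : Type} (i1 i2 : DecidableEq α) (f1 f2 : Fintype α) (σ : Equiv.Perm α) :
    @Equiv.Perm.sign α i1 f1 σ = @Equiv.Perm.sign α i2 f2 σ := by
  have h1 : i1 = i2 := Subsingleton.elim _ _
  have h2 : f1 = f2 := Subsingleton.elim _ _
  subst h1
  subst h2
  rfl

theorem signP {I : Type} [Fintype I] (π : Equiv.Perm I) (inst1 : DecidableEq (Option (I × Bool)))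
    (inst2 : Fintype (Option (I × Bool))) :
    @Equiv.Perm.sign _ inst1 inst2
      (Equiv.optionCongr (Equiv.prodCongrLeft (fun _ : Bool => π)) : Equiv.Perm (Option (I × Bool))) = 1 := by
  have h1 := Equiv.optionCongr_sign (Equiv.prodCongrLeft (fun _ : Bool => π) : Equiv.Perm (I × Bool))
  have h2 := Equiv.Perm.sign_prodCongrLeft (fun _ : Bool => π)
  have h3 : ∏ _k : Bool, Equiv.Perm.sign π = 1 := by
    simp only [Finset.prod_const, Finset.card_univ, Fintype.card_bool]
    rcases Int.units_eq_one_or (Equiv.Perm.sign π) with h | h <;> rw [h] <;> rfl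
  exact (sgi _ _ _ _ _).trans (h1.trans ((sgi _ _ _ _ _).trans (h2.trans h3)))

variable {p : ℕ} [Fact p.Prime] {I : Type} [Fintype I]

theorem ff_comp (g : ZMod p) (a : I → ZMod p) (π : Equiv.Perm I) :
    ff (fun _ => g) (fun i => a (π i)) = fun x => ff (fun _ => g) a
      ((Equiv.optionCongr (Equiv.prodCongrLeft (fun _ : Bool => π)) : Equiv.Perm (Option (I × Bool))) x) := by
  funext x
  rcases x with _ | ⟨i, b⟩
  · rfl
  · cases b <;> rfl

theorem sg_ff_comp (ρ : Option (I × Bool) ≃ ZMod p) (a : I → ZMod p) (π : Equiv.Perm I) :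
    sg ρ (ff (fun _ => 1) (fun i => a (π i))) = sg ρ (ff (fun _ => 1) a) := by
  rw [ff_comp, sg_comp_perm, signP]
  simp

/-- the reference point -/
noncomputable def a0 (e : I ≃ Fin (Fintype.card I)) (i : I) : ZMod p := ((2 * (e i : ℕ) + 2 : ℕ) : ZMod p)

/-- natural values -/
noncomputable def hv (e : I ≃ Fin (Fintype.card I)) : Option (I × Bool) → ℕ
  | none => 0
  | some (i, true) => 2 * (e i : ℕ) + 2
  | some (i, false) => 2 * (e i : ℕ) + 1

theorem hv_inj (e : I ≃ Fin (Fintype.card I)) : Function.Injective (hv e) := by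
  intro x y hxy
  rcases x with _ | ⟨i, b⟩ <;> rcases y with _ | ⟨j, c⟩
  · rfl
  · cases c <;> simp [hv] at hxy
  · cases b <;> simp [hv] at hxy
  · cases b <;> cases c <;> simp only [hv] at hxy
    · have : e i = e j := Fin.ext (by omega)
      rw [e.injective this]
    · omega
    · omega
    · have : e i = e j := Fin.ext (by omega)
      rw [e.injective this]

theorem hv_lt (e : I ≃ Fin (Fintype.card I)) (hp : p = 2 * Fintype.card I + 1)
    (x : Option (I × Bool)) : hv e x < p := by
  rcases x with _ | ⟨i, b⟩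
  · simp only [hv]; omega
  · have := (e i).2
    cases b <;> simp only [hv] <;> omega

theorem ff_a0 (e : I ≃ Fin (Fintype.card I)) :
    ff (fun _ => (1 : ZMod p)) (a0 e) = fun x => ((hv e x : ℕ) : ZMod p) := by
  funext x
  rcases x with _ | ⟨i, b⟩
  · simp [ff, hv]
  · cases b
    · simp only [ff, hv, a0]; push_cast; ring
    · simp only [ff, hv, a0]

theorem cast_inj_lt {x y : ℕ} (hx : x < p) (hy : y < p) (h : (x : ZMod p) = (y : ZMod p)) : x = y := by
  have := (ZMod.natCast_eq_natCast_iff' x y p).1 h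
  rwa [Nat.mod_eq_of_lt hx, Nat.mod_eq_of_lt hy] at this

theorem card_eq (ρ : Option (I × Bool) ≃ ZMod p) : p = 2 * Fintype.card I + 1 := by
  have := Fintype.card_congr ρ
  rw [ZMod.card, Fintype.card_option, Fintype.card_prod, Fintype.card_bool] at this
  omega

theorem ff_a0_bij (ρ : Option (I × Bool) ≃ ZMod p) (e : I ≃ Fin (Fintype.card I)) :
    Function.Bijective (ff (fun _ => (1 : ZMod p)) (a0 e)) := by
  have hp := card_eq ρ
  rw [Fintype.bijective_iff_injective_and_card]
  refine ⟨?_, Fintype.card_congr ρ⟩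
  rw [ff_a0]
  intro x y hxy
  exact hv_inj e (cast_inj_lt (hv_lt e hp x) (hv_lt e hp y) hxy)

theorem cover (ρ : Option (I × Bool) ≃ ZMod p) (a : I → ZMod p)
    (ha : Function.Bijective (ff (fun _ => (1 : ZMod p)) a)) (k : ℕ) (hk : k < Fintype.card I) :
    ∃ i, a i = ((2 * k + 2 : ℕ) : ZMod p) := by
  have hp := card_eq ρ
  induction k using Nat.strong_induction_on with
  | _ k ih =>
    obtain ⟨x, hx⟩ := ha.2 ((2 * k + 1 : ℕ) : ZMod p)
    rcases x with _ | ⟨i, b⟩
    · exfalso
      simp only [ff] at hx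
      have := cast_inj_lt (p := p) (x := 0) (y := 2 * k + 1) (by omega) (by omega) (by rw [← hx]; simp)
      omega
    · cases b
      · refine ⟨i, ?_⟩
        simp only [ff] at hx
        rw [sub_eq_iff_eq_add] at hx
        rw [hx]; push_cast; ring
      · exfalso
        simp only [ff] at hx
        have h2 : ff (fun _ => (1 : ZMod p)) a (some (i, false)) = ((2 * k : ℕ) : ZMod p) := by
          simp only [ff]; rw [hx]; push_cast; ring
        rcases Nat.eq_zero_or_pos k with h0 | h0
        · subst h0
          have h3 : ff (fun _ => (1 : ZMod p)) a (some (i, false)) = ff (fun _ => (1 : ZMod p)) a none := by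
            rw [h2]; simp [ff]
          have := ha.1 h3
          simp at this
        · obtain ⟨i', hi'⟩ := ih (k - 1) (by omega) (by omega)
          have h3 : ff (fun _ => (1 : ZMod p)) a (some (i, false)) =
              ff (fun _ => (1 : ZMod p)) a (some (i', true)) := by
            rw [h2]; simp only [ff]; rw [hi']; congr 1; omega
          have := ha.1 h3
          simp at this

theorem exists_perm (ρ : Option (I × Bool) ≃ ZMod p) (e : I ≃ Fin (Fintype.card I)) (a : I → ZMod p)
    (ha : Function.Bijective (ff (fun _ => (1 : ZMod p)) a)) :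
    ∃ π : Equiv.Perm I, (fun i => a0 e (π i)) = a := by
  have h1 : ∀ i, ∃ j, a j = a0 e i := fun i => cover ρ a ha (e i) (e i).2
  choose f hf using h1
  have hinj : Function.Injective (a0 (p := p) e) := by
    intro i j hij
    have : ff (fun _ => (1 : ZMod p)) (a0 e) (some (i, true)) =
      ff (fun _ => (1 : ZMod p)) (a0 e) (some (j, true)) := hij
    have := (ff_a0_bij ρ e).1 this
    simpa using this
  have hfinj : Function.Injective f := by
    intro i j hij
    apply hinj
    rw [← hf i, ← hf j, hij]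
  have hfb : Function.Bijective f := Finite.injective_iff_bijective.1 hfinj
  refine ⟨(Equiv.ofBijective f hfb).symm, ?_⟩
  funext i
  rw [← hf]
  congr 1
  exact (Equiv.ofBijective f hfb).apply_symm_apply i

theorem YY_eq (ρ : Option (I × Bool) ≃ ZMod p) (e : I ≃ Fin (Fintype.card I)) :
    YY ρ (fun _ => (1 : ZMod p)) = (Fintype.card I).factorial * sg ρ (ff (fun _ => 1) (a0 e)) := by
  unfold YY
  have hinj : Function.Injective (fun π : Equiv.Perm I => fun i => a0 (p := p) e (π i)) := by
    intro π π' h
    apply Equiv.ext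
    intro i
    have h1 := congrFun h i
    have : ff (fun _ => (1 : ZMod p)) (a0 e) (some (π i, true)) =
      ff (fun _ => (1 : ZMod p)) (a0 e) (some (π' i, true)) := h1
    have := (ff_a0_bij ρ e).1 this
    simpa using this
  have h1 : ∑ a : I → ZMod p, sg ρ (ff (fun _ => 1) a) =
      ∑ a ∈ (univ : Finset (Equiv.Perm I)).map ⟨_, hinj⟩, sg ρ (ff (fun _ => 1) a) := by
    symm
    apply Finset.sum_subset (Finset.subset_univ _)
    intro a _ ha
    apply sg_of_not
    intro hb
    apply ha
    obtain ⟨π, hπ⟩ := exists_perm ρ e a hb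
    rw [Finset.mem_map]
    exact ⟨π, Finset.mem_univ _, hπ⟩
  rw [h1, Finset.sum_map]
  simp only [Function.Embedding.coeFn_mk]
  rw [Finset.sum_congr rfl (fun π _ => sg_ff_comp ρ (a0 e) π)]
  rw [Finset.sum_const, Finset.card_univ, Fintype.card_perm, nsmul_eq_mul]

theorem main : Pool.Agent.W426.LE.S_YB := by
  intro p _ hp2 I _ ρ h0
  have hp := card_eq ρ
  let e := Fintype.equivFin I
  rw [YY_eq ρ e] at h0
  have h1 := sg_eq ρ _ (ff_a0_bij ρ e)
  have h2 : ((Fintype.card I).factorial : ZMod p) = 0 := by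
    rcases h1 with h | h
    · rw [h] at h0; simpa using h0
    · rw [h] at h0; simpa using h0
  rw [ZMod.natCast_eq_zero_iff] at h2
  have h3 := (Nat.Prime.dvd_factorial (Fact.out : p.Prime)).1 h2
  omega

end Pool.Agent.W154.LEYB
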